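import Mathlib
import Pool.Agent.H592R9.SumDefs
import Pool.Agent.H592R9.SumAvg
import Pool.Agent.H592R9.SumValid

/-!
Integer 3SUM is hard on average for circuits of small depth with at most `n ^ (2 - ε)` gates:
lists of random integers cannot be distinguished from random lists with a planted solution.
-/

open SmallDepth DomAC0

theorem Pool.Agent.Results.MP_8f87b2_lc.AverageCaseSmallDepth.result :
    (∀ ε : ℝ, 0 < ε → ε ≤ 1 → ∃ C : ℝ, 0 < C ∧ ∀ n d r : ℕ, 3 ≤ n → 1 ≤ d →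
      C * (d * Real.log (Real.log n + 2)) ≤ Real.log n → 2 * r + 1 ≤ n ^ 5 →
      ∀ (J : Type) [Fintype J] (enc : (Fin n → ℤ) → J → Bool), Fintype.card J ≤ n ^ 4 →
        (∀ j, ∃ i, ∀ x x' : Fin n → ℤ, x i = x' i → enc x j = enc x' j) →
      ∀ K : Circuit J, K.depth ≤ d → (K.size : ℝ) ≤ (n : ℝ) ^ (2 - ε) →
        |uniformPr n r (fun x => K.eval (enc x) = true) -
          plantedPr n r (fun x => K.eval (enc x) = true)| ≤ (n : ℝ) ^ (-(ε / 2))) ∧
    (∀ n : ℕ, 3 ≤ n →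
      1 - 1 / (n : ℝ) ≤ uniformPr n (n ^ 4) (fun x => Function.Injective x ∧ ¬ HasZeroSum x) ∧
      1 - 1 / (n : ℝ) ≤ plantedPr n (n ^ 4) (fun x => Function.Injective x ∧ HasZeroSum x)) :=
  ⟨fun ε hε hε1 => H592R3.Hp.sum_avg ε hε hε1, fun n hn => H592R3.Hp.valid_prob n hn⟩
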