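import Mathlib
import Pool.Agent.H559R14.Defs
import Pool.Agent.H559R14.Main

/-!
Interactive proofs (public coins, any number of rounds, few prover bits) for no-instances of
integer 3SUM need verifiers with `n ^ (2 - ε)` gates, if the verifiers are circuits of small depth.
-/

open SmallDepth DomAC0 Filter H592R3

theorem Pool.Agent.Results.MP_8f87b2_lc.InteractiveProofs.result :
    (∀ ε : ℝ, 0 < ε → ∃ C : ℝ, 0 < C ∧ ∀ n d g S : ℕ, 2 ≤ n → 1 ≤ d →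
      C * (d * Real.log (Real.log n + g + 2)) ≤ Real.log n →
      ∀ G : Game (ZeroBits n), G.Bounded d S g →
      (∀ z, ZeroValid z → ¬ HasZero z → 2 / 3 ≤ G.value z) →
      (∀ z, ZeroValid z → HasZero z → G.value z ≤ 1 / 3) →
      (n : ℝ) ^ (2 - ε) < S) ∧
    (∀ a b K d : ℕ, a < 2 * b → ∃ δ : ℝ, 0 < δ ∧ ∀ᶠ n : ℕ in atTop,
      ¬ ∃ (S g : ℕ) (G : Game (ZeroBits n)), (S : ℝ) ≤ K * ((n : ℝ) ^ ((a : ℝ) / b) + 1) ∧
        (g : ℝ) ≤ (n : ℝ) ^ δ ∧ G.Bounded d S g ∧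
        (∀ z, ZeroValid z → ¬ HasZero z → 2 / 3 ≤ G.value z) ∧
        (∀ z, ZeroValid z → HasZero z → G.value z ≤ 1 / 3)) := by
  refine ⟨fun ε hε => Hp.zero_game ε hε, ?_⟩
  intro a b K d hab
  have hb : (0 : ℝ) < b := by exact_mod_cast (by omega : 0 < b)
  have habR : (a : ℝ) / b < 2 := by rw [div_lt_iff₀ hb]; exact_mod_cast hab
  have hab0 : (0 : ℝ) ≤ (a : ℝ) / b := by positivity
  obtain ⟨ε, hε⟩ : ∃ ε : ℝ, ε = (2 - (a : ℝ) / b) / 2 := ⟨_, rfl⟩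
  have hε0 : 0 < ε := by rw [hε]; linarith
  obtain ⟨C, hC, hlow⟩ := Hp.zero_game ε hε0
  obtain ⟨D, hD⟩ : ∃ D : ℝ, D = C * ((max d 1 : ℕ) : ℝ) := ⟨_, rfl⟩
  have hD0 : 0 < D := by rw [hD]; positivity
  obtain ⟨δ, hδ⟩ : ∃ δ : ℝ, δ = 1 / (2 * D) := ⟨_, rfl⟩
  have hδ0 : 0 < δ := by rw [hδ]; positivity
  refine ⟨δ, hδ0, ?_⟩
  have hlogn : Tendsto (fun n : ℕ => Real.log (n : ℝ)) atTop atTop :=
    Real.tendsto_log_atTop.comp tendsto_natCast_atTop_atTop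
  -- `D * log (log n + n ^ δ + 2) ≤ log n`
  have h1 : ∀ᶠ n : ℕ in atTop, Real.log n + 2 ≤ (n : ℝ) ^ δ := by
    have h2 := (isLittleO_log_rpow_atTop hδ0).bound (c := 1 / 2) (by norm_num)
    have h3 := tendsto_natCast_atTop_atTop (R := ℝ) |>.eventually h2
    have h4 : ∀ᶠ n : ℕ in atTop, 4 ≤ (n : ℝ) ^ δ :=
      ((tendsto_rpow_atTop hδ0).comp tendsto_natCast_atTop_atTop).eventually
        (eventually_ge_atTop _)
    filter_upwards [h3, h4, eventually_ge_atTop 2] with n k1 k2 k3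
    have hn1 : (1 : ℝ) ≤ n := by exact_mod_cast (by omega : 1 ≤ n)
    rw [Real.norm_of_nonneg (Real.log_nonneg hn1),
      Real.norm_of_nonneg (by positivity)] at k1
    linarith
  have h5 : ∀ᶠ n : ℕ in atTop, 2 * D * Real.log 2 ≤ Real.log (n : ℝ) :=
    hlogn.eventually (eventually_ge_atTop _)
  have h6 : ∀ᶠ n : ℕ in atTop, 2 * (K : ℝ) ≤ (n : ℝ) ^ ε :=
    ((tendsto_rpow_atTop hε0).comp tendsto_natCast_atTop_atTop).eventually
      (eventually_ge_atTop _)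
  filter_upwards [h1, h5, h6, eventually_ge_atTop 2] with n k1 k5 k2 k3
  rintro ⟨S, g, G, hS, hg, hG, hyes, hno⟩
  have hn1 : (1 : ℝ) ≤ n := by exact_mod_cast (by omega : 1 ≤ n)
  have hn0 : (0 : ℝ) < n := by linarith
  have hlog0 : 0 ≤ Real.log (n : ℝ) := Real.log_nonneg hn1
  have hlg : Real.log (Real.log n + g + 2) ≤ Real.log 2 + δ * Real.log n := by
    have e1 : Real.log n + g + 2 ≤ 2 * (n : ℝ) ^ δ := by linarith
    have e2 : Real.log (2 * (n : ℝ) ^ δ) = Real.log 2 + δ * Real.log n := by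
      rw [Real.log_mul (by norm_num) (by positivity), Real.log_rpow hn0]
    rw [← e2]
    exact Real.log_le_log (by positivity) e1
  have hcond : D * Real.log (Real.log n + g + 2) ≤ Real.log n := by
    calc D * Real.log (Real.log n + g + 2) ≤ D * (Real.log 2 + δ * Real.log n) :=
          mul_le_mul_of_nonneg_left hlg hD0.le
      _ = D * Real.log 2 + Real.log n / 2 := by rw [hδ]; field_simp
      _ ≤ Real.log n := by linarith
  have hG' : G.Bounded (max d 1) S g := Hp.bounded_mono (le_max_left _ _) G hG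
  have hmain := hlow n (max d 1) g S k3 (le_max_right _ _) (by
    rw [← mul_assoc, ← hD]; exact hcond) G hG' hyes hno
  have e1 : (2 : ℝ) - ε = (a : ℝ) / b + ε := by rw [hε]; ring
  rw [e1, Real.rpow_add hn0] at hmain
  have e2 : (1 : ℝ) ≤ (n : ℝ) ^ ((a : ℝ) / b) := Real.one_le_rpow hn1 hab0
  have hK0 : (0 : ℝ) ≤ K := by positivity
  have e3 : (S : ℝ) ≤ (n : ℝ) ^ ((a : ℝ) / b) * (n : ℝ) ^ ε := by
    calc (S : ℝ) ≤ K * ((n : ℝ) ^ ((a : ℝ) / b) + 1) := hS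
      _ ≤ K * (2 * (n : ℝ) ^ ((a : ℝ) / b)) := by
          apply mul_le_mul_of_nonneg_left _ hK0
          linarith
      _ = (n : ℝ) ^ ((a : ℝ) / b) * (2 * K) := by ring
      _ ≤ (n : ℝ) ^ ((a : ℝ) / b) * (n : ℝ) ^ ε := by gcongr
  linarith
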