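import Mathlib
import Pool.Agent.H587R2.MRC.TripleFin

/-!
# All-numbers 3SUM for monotone real programs with few tests

A set `S` of at most `n` integers between `-N` and `N` is given by presence bits: for every integer
`z` there is a register which contains `1` if `z` is in `S` and `0` otherwise.  A program may
replace the contents of a register by any nondecreasing real function of the contents of any number
`k` of registers (cost `k`), and it may test whether the contents of a register is less than a
constant and branch (cost `0`).  It has to find out for every `z` in `S` whether there are `x` and
`y` in `S` such that `x`, `y`, `z` are distinct and `x + y + z = 0`.

Let `0 < δ ≤ 1 / 2`, `7680 * m ≤ δ ^ 2 * n` and `n ^ 2 ≤ N`.  If a randomised program, all of whose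
deterministic programs have at most `m` leaves (`m = 2 ^ t` for at most `t` tests per run), gives
every single answer correctly with probability at least `1 / 2 + δ`, then its expected cost is at
least `δ ^ 3 * n ^ 2 / (516000 * m ^ 2)` for some set.

So without tests (and with boundedly many tests) the cost is at least a constant times `n ^ 2`,
even if arbitrary nondecreasing functions of many registers are allowed: there is no better way
than to look at all pairs for every `z`.  With `o(log n)` tests the cost is `n ^ (2 - o(1))`.

The proof gives more generally: if `E` is a set of products `x (a p) * y (b p)` such that no two
products of an output share a variable and no product occurs twice, then every monotone real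
program without tests for the outputs (the disjunctions of their products) has cost at least
`(2 * |E| - 120 * (number of outputs)) / 2580`.  In particular the Boolean convolution of two
vectors of length `n` needs `c * n ^ 2` wires.

Proof.  The true point of the product `p` has `x (a p) = y (b p) = 1` and all other variables equal
to `0`.  The false points of an output are given by the sets `T` of its products: `x (a r) = 0` for
`r` in `T`, `y (b r) = 0` for the other products `r` of the output, and all other variables are
equal to `1`.  For a register let `D(p)` be the set of all `T` such that its contents is larger at
the true point of `p` than at the false point `T` of the output of `p`, and call `p` mixed if both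
the `T` in `D(p)` which contain `p` and those which do not contain `p` make up at least `1 / 8` of
`D(p)`.  Products are mixed for their outputs and not for the inputs.  So every pair `(p, T)` can
be charged to a wire from a gate for which `p` is mixed to a register for which `p` is not mixed,
such that `T` is in both sets `D(p)`.  The main point is that the charge of a wire is bounded by an
absolute constant.  For one output this holds because the sets `D(p)` are nested and a large
family of sets is not biased in many directions.  For different outputs the zeros of `T` must cover
all products `q` whose true points have larger values, which is unlikely if there is a large
matching of such `q` in other outputs, or a large star at one of the variables of `p`.  The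
different outputs which dominate the greedy matching one after the other do so at larger and
larger sizes, which gives a geometric series.  For the tests, about `m / δ` blocks are put into a
chain of inputs so that the outcomes of the tests are the same in most of them.
-/

namespace Pool.Agent.Results.MP_8f87b2_lc.MonotoneRealPrograms

open Pool.Agent.H587R2.MRB (Prog)

open Pool.Agent.H587R2.MRC

theorem result (n N m : ℕ) (δ : ℝ) (hδ : 0 < δ) (hδ2 : δ ≤ 1 / 2)
    (hn : 7680 * (m : ℝ) ≤ δ ^ 2 * n) (hN : n ^ 2 ≤ N)
    (Ω : Type) [Fintype Ω] (p : Ω → ℝ) (P : Ω → Prog ℤ ℤ) (hP : Solves n N δ p P)
    (hm : ∀ ω, (P ω).leaves ≤ m) :
    ∃ S : Finset ℤ, S.card ≤ n ∧ (∀ x ∈ S, |x| ≤ (N : ℤ)) ∧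
      δ ^ 3 * (n : ℝ) ^ 2 ≤ 516000 * (m : ℝ) ^ 2 * expCost p P S :=
  triple_bound hδ hδ2 hn hN p P hP hm

end Pool.Agent.Results.MP_8f87b2_lc.MonotoneRealPrograms
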